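import Pool.Agent.H79Z.ShaiH

set_option autoImplicit false

namespace Pool.Agent.Results.MP_df090f_an.AShai

universe u v w

/-- `C(βΓ)` (real or complex scalars) has the SHAI property for every discrete space `Γ`, in
particular for every uncountable one: for every non-zero Banach space `Y`, every surjective linear
multiplicative map from the bounded operators on `C(βΓ)` onto the bounded operators on `Y` is
injective. No continuity or unitality is assumed. -/
theorem result (𝕜 : Type u) [RCLike 𝕜] (Γ : Type w) [TopologicalSpace Γ] [DiscreteTopology Γ]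
    (Y : Type v) [NormedAddCommGroup Y] [NormedSpace 𝕜 Y] [CompleteSpace Y] [Nontrivial Y]
    (φ : (C(StoneCech Γ, 𝕜) →L[𝕜] C(StoneCech Γ, 𝕜)) →ₗ[𝕜] (Y →L[𝕜] Y))
    (hmul : ∀ S T, φ (S.comp T) = (φ S).comp (φ T)) (hsurj : Function.Surjective φ) :
    Function.Injective φ :=
  Pool.Agent.H79Z.Shai.shai_stoneCech φ hmul hsurj

end Pool.Agent.Results.MP_df090f_an.AShai
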